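import Pool.Agent.Lib.MP_d59f30_al.Rays

set_option autoImplicit false

open scoped ENNReal
open Pool.Agent.Lib.MP_d59f30_al

namespace Pool.Agent.Results.MP_d59f30_al.CubicInfiniteHeight

/-- A finitely generated group with cubic divergence whose QR-poset has infinite height. -/
theorem result :
    ∃ (G : Type) (_ : Group G) (S : Finset G) (hS : Subgroup.closure (S : Set G) = ⊤),
      (∀ γ δ : ℝ, 0 < δ → δ ≤ 1 / 2 → 2 ≤ γ →
        Dominated (divergence (CayleySpace S hS) γ δ) (fun n => (n : ℝ≥0∞) ^ 3) ∧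
        Dominated (fun n => (n : ℝ≥0∞) ^ 3) (divergence (CayleySpace S hS) γ δ)) ∧
      (Set.univ : Set (QRPoset (CayleySpace S hS))).chainHeight (QRLe (CayleySpace S hS)) = ⊤ :=
  ⟨GG, inferInstance, gens, gens_top,
    fun _ _ hδ hδ' hγ => ⟨div_upper hδ' hγ, div_lower hδ (by linarith)⟩, height_top⟩

end Pool.Agent.Results.MP_d59f30_al.CubicInfiniteHeight
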